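import Pool.Agent.P.MP_746f10_nt.AP.QAll

namespace Pool.Agent.P.MP_746f10_nt.Old.AllModuli

/-- There is a set `R` of at most `(log Q) ^ C` integers above `(log Q) ^ A` such that, for all
integers `a i` in `[Q, Q ^ (3 / 2)]` without a divisor in `R`, at most `ε ∏ φ (a i)` admissible
tuples `b` with `1 ≤ b i < a i` have fewer than `c ∏ (a i / φ (a i)) Q / (log Q) ^ k` integers
`Q ≤ n < 2 Q` at which all the values `a i n + b i` are prime. -/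
theorem result (k : ℕ) : ∃ c : ℝ, 0 < c ∧ ∀ ε : ℝ, 0 < ε → ∃ C : ℕ, ∀ A : ℕ, ∃ Q0 : ℕ,
    ∀ Q : ℕ, Q0 ≤ Q → ∃ R : Finset ℕ, (R.card : ℝ) ≤ Real.log Q ^ C ∧
      (∀ r ∈ R, Real.log Q ^ A < r) ∧ ∀ a : Fin k → ℕ,
      (∀ i, Q ≤ a i ∧ a i ^ 2 ≤ Q ^ 3 ∧ ∀ r ∈ R, ¬ r ∣ a i) →
      (Set.ncard {b : Fin k → ℕ | (∀ i, 1 ≤ b i ∧ b i < a i) ∧
        (∀ p : ℕ, p.Prime → ∃ n : ℕ, ∀ i, ¬ p ∣ a i * n + b i) ∧
        (Set.ncard {n : ℕ | Q ≤ n ∧ n < 2 * Q ∧ ∀ i, (a i * n + b i).Prime} : ℝ) <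
          c * (∏ i, (a i : ℝ) / (a i).totient) * Q / Real.log Q ^ k} : ℝ) ≤
        ε * ∏ i, ((a i).totient : ℝ) := by
  classical
  obtain ⟨c, hc, h⟩ := Pool.Agent.P.MP_746f10_nt.AP.qmain_all k
  refine ⟨c, hc, fun ε hε => ?_⟩
  obtain ⟨C, h⟩ := h ε hε
  refine ⟨C, fun A => ?_⟩
  obtain ⟨Q0, h⟩ := h A
  refine ⟨Q0, fun Q hQ => ?_⟩
  obtain ⟨R, hR, hR', h⟩ := h Q hQ
  refine ⟨R, hR, hR', fun a ha => le_trans (le_of_eq ?_) (h a ha)⟩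
  congr 1
  rw [← Set.ncard_coe_finset]
  congr 1
  ext b
  have e : ({n : ℕ | Q ≤ n ∧ n < 2 * Q ∧ ∀ i, (a i * n + b i).Prime} : Set ℕ).ncard =
      ((Finset.Ico Q (2 * Q)).filter (fun n => ∀ i, (a i * n + b i).Prime)).card := by
    rw [← Set.ncard_coe_finset]
    congr 1
    ext n
    simp [and_assoc]
  rw [Finset.mem_coe, Finset.mem_filter, Fintype.mem_piFinset, Set.mem_ofPred_eq, e]
  simp only [Finset.mem_Ico, Pool.Agent.P.MP_746f10_nt.AP.Adm]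

end Pool.Agent.P.MP_746f10_nt.Old.AllModuli
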